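import Pool.Agent.MP_434e52_an.Defs
import Pool.Agent.MP_434e52_an.TDefs
import Pool.Agent.MP_434e52_an.TriC

set_option autoImplicit false

namespace Pool.Agent.MP_434e52_an.Old.Hyperbolic

open Pool.Agent.MP_434e52_an

/-- Two non-isomorphic word-hyperbolic ICC property (T) groups with one group von Neumann
algebra. -/
theorem result : ∃ (G G' : Type) (_ : Group G) (_ : Group G'),
    Hyperbolic G ∧ Hyperbolic G' ∧ Infinite G ∧ Infinite G' ∧ ICC G ∧ ICC G' ∧
      PropT G ∧ PropT G' ∧ VNIso G G' ∧ IsEmpty (G ≃* G') := thmA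

end Pool.Agent.MP_434e52_an.Old.Hyperbolic
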