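import Pool.Agent.MP_434e52_an.Defs
import Pool.Agent.MP_434e52_an.Fin

set_option autoImplicit false

namespace Pool.Agent.MP_434e52_an.Old.ManyClasses

open Pool.Agent.MP_434e52_an Polynomial

/-- Infinitely many pairwise not virtually isomorphic ICC property (T) groups with one group
von Neumann algebra. -/
theorem result : ∃ (G : ℕ → Type) (_ : ∀ k, Group (G k)),
    (∀ k, Countable (G k)) ∧ (∀ k, PropT (G k)) ∧ (∀ k, ICC (G k)) ∧
    (∀ k l, VNIso (G k) (G l)) ∧ ∀ k l, k ≠ l → ¬ VirtIso (G k) (G l) := by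
  let _ : Fintype (GaloisField 2 3) := Fintype.ofFinite _
  have hF : 8 ≤ Fintype.card (GaloisField 2 3) := by
    rw [← Nat.card_eq_fintype_card, GaloisField.card 2 3 (by norm_num)]; norm_num
  have : Countable (GaloisField 2 3)[X] := countable_poly
  have : Countable (GaloisField 2 3)[X][X] := countable_poly
  exact ⟨fun k => (cr (X ^ k : (GaloisField 2 3)[X][X])).G, fun _ => inferInstance,
    fun _ => Cm.countable_G, fun _ => propT_G hF _ _ (adjoin_two _) _, fun _ => icc_G _,
    fun _ _ => vnIso_witt _ _, fun _ _ h => not_virtIso cov_poly h⟩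

end Pool.Agent.MP_434e52_an.Old.ManyClasses
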