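import Pool.Agent.MP_434e52_an.Defs
import Pool.Agent.MP_434e52_an.TDefs
import Pool.Agent.MP_434e52_an.TriC

set_option autoImplicit false

namespace Pool.Agent.MP_434e52_an.Old.RelHyperbolic

open Pool.Agent.MP_434e52_an

/-- Two relatively hyperbolic ICC property (T) groups with trivial amenable radical and one group
von Neumann algebra which are not virtually isomorphic. -/
theorem result : ∃ (G G' : Type) (_ : Group G) (_ : Group G'),
    Countable G ∧ Countable G' ∧ (∃ H : Subgroup G, H ≠ ⊤ ∧ RelHyperbolic G H) ∧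
      (∃ H' : Subgroup G', H' ≠ ⊤ ∧ RelHyperbolic G' H') ∧ FreeInNormal G ∧ FreeInNormal G' ∧
      ICC G ∧ ICC G' ∧ PropT G ∧ PropT G' ∧ VNIso G G' ∧ ¬ VirtIso G G' := thmB

end Pool.Agent.MP_434e52_an.Old.RelHyperbolic
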